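import Pool.Agent.N12.MH.Ht

set_option autoImplicit false

/-!
# MP_6a632e_nt: lower bounds for all moments of zeta along almost all dilates of an arbitrary sequence

Let `x 0, x 1, …` be ANY sequence of real numbers with `x j + 1 ≤ x (j + 1)` (any increasing sequence of integers, for example
the primes, the values of a polynomial, or a set without any arithmetic structure). For almost every real number `α`, for all
large `T`, the mean of the `2k`-th local moments of the zeta function on the critical line over the heights `α x_j + β` in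
`[T, 2T]` is at least of the conjectured order `(log T) ^ (k ^ 2)`, for every integer `k ≥ 1`, uniformly in the translation `β`
and in the window `J₁ ≤ j < J₂` of indices, as soon as the window has at least `T ^ κ` and at least `J₂ ^ ρ` terms, `κ > 0` and
`ρ > 1/2` fixed. The constant depends on `k`, `κ`, `ρ` only.

Proof. By a second moment estimate and the Borel-Cantelli lemma, for almost all `α` the exponential sums of `α x_j log (m/n)`
over dyadic blocks, and so over all these windows, are small by a power of the length, simultaneously for all different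
`m`, `n` up to a small power of the length (`Pool.Agent.N12.MH`). Then the lower bound for the moments of zeta over sparse
sets of heights with small character sums of helper461 (`Pool.Agent.R461.HM`) can be applied.
-/

namespace Pool.Agent.Results.MP_6a632e_nt.MetricHeights

open Complex MeasureTheory
open scoped ENNReal
open Pool.Agent.N12.MH (Window)

noncomputable section

/-- the mean of `|ζ(1/2 + i(t + u))|^(2k)` over `u` with the weight `L / (1 + L |u|) ^ N`, `L = log T` -/
def localMoment (k N : ℕ) (T t : ℝ) : ℝ≥0∞ :=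
  ∫⁻ u : ℝ, ENNReal.ofReal (‖riemannZeta (1 / 2 + I * (t + u))‖ ^ (2 * k) *
    (Real.log T / (1 + Real.log T * |u|) ^ N))

/-- **Lower bounds for the moments of zeta along almost all dilates of an arbitrary sequence.** Let `k ≥ 1`, `κ > 0`,
`1/2 < ρ ≤ 1` and `N` be given. There is `c > 0` such that for all sequences `x` with `x j + 1 ≤ x (j + 1)` and almost every
real `α`: for all large `T`, all `β` and all windows `J₁ ≤ j < J₂` with at least `T ^ κ` and at least `J₂ ^ ρ` terms and all
`α x_j + β` in `[T, 2T]`, the mean of the local `2k`-th moments over the heights `α x_j + β` is at least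
`c (log T) ^ (k ^ 2)`. -/
theorem result (k : ℕ) (hk : 1 ≤ k) (N : ℕ) (κ ρ : ℝ) (hκ : 0 < κ) (hρ : 1 / 2 < ρ) (hρ1 : ρ ≤ 1) :
    ∃ c : ℝ, 0 < c ∧ ∀ x : ℕ → ℝ, (∀ j, x j + 1 ≤ x (j + 1)) → ∀ᵐ α : ℝ, ∃ T₀ : ℝ, ∀ T : ℝ, T₀ ≤ T →
      ∀ (J₁ J₂ : ℕ) (β : ℝ), Window x κ ρ α β T J₁ J₂ →
        ENNReal.ofReal (c * Real.log T ^ (k ^ 2)) ≤
          ((J₂ - J₁ : ℕ) : ℝ≥0∞)⁻¹ * ∑ j ∈ Finset.Ico J₁ J₂, localMoment k N T (α * x j + β) := by
  have hη0 : 0 < ρ - 1 / 2 := by linarith
  have hθ : 0 < κ * (ρ - 1 / 2) / 80 := by positivity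
  have hθ' : κ * (ρ - 1 / 2) / 80 < κ * (ρ - 1 / 2) / 40 := by
    have : 0 < κ * (ρ - 1 / 2) := by positivity
    linarith
  obtain ⟨c, T₁, hc, hT₁, hlow⟩ := Pool.Agent.R461.HM.lower' hk N hθ hθ'
  refine ⟨c, hc, fun x hx => ?_⟩
  filter_upwards [Pool.Agent.N12.MH.heights_ae hx hκ hρ hρ1] with α hα
  obtain ⟨T₂, hα⟩ := hα
  refine ⟨max T₁ T₂, fun T hT J₁ J₂ β hw => ?_⟩
  have hTa := (le_max_left _ _).trans hT
  have hT0 : 0 < T := (Real.exp_pos 1).trans_le (hT₁.trans hTa)
  have hL : 0 < Real.log T := by
    have : 1 ≤ Real.log T := by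
      rw [Real.le_log_iff_exp_le hT0]
      exact hT₁.trans hTa
    linarith
  have h1 := hlow T hTa _ (hα T ((le_max_right _ _).trans hT) J₁ J₂ β hw)
  rw [Pool.Agent.R461.HM.lintegral_unif k N hL] at h1
  rw [Finset.sum_Ico_eq_sum_range]
  exact h1

end

end Pool.Agent.Results.MP_6a632e_nt.MetricHeights
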