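import Pool.Agent.N12.MH.GpHt

set_option autoImplicit false

/-!
# MP_6a632e_nt: lower bounds for all moments of zeta over the values of functions of non-integral order

Let `f t = ∑ a_x t ^ x` be a generalised polynomial (finitely many real exponents `x`) whose largest exponent `c > 0` is not
an integer, with `a_c > 0`; for instance `f t = α t ^ (3 / 2)`. For EVERY such `f` and every translation `β`, the mean of the
`2k`-th local moments of the zeta function on the critical line over the heights `f j + β`, `J ≤ j < J + L`, in `[T, 2T]` is at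
least of the conjectured order `(log T) ^ (k ^ 2)`, for every integer `k ≥ 1`, also over short windows with only `J ^ (1 - κ)`
terms. The constant does not depend on `f` and `β`, only on `k`, `c` and (if `β ≠ 0`) on `D` with `T ≤ J ^ D`. For `c = 3 / 2`
these are `T ^ (2 / 3)` heights in `[T, 2T]`, for large `c` the heights are very sparse.

For integral order the character sums need not be small for every `f` (`α log (m/n) / 2π` may be rational); the theorem
`MP_6a632e_nt.MetricHeights` has all sequences, but only almost all dilates.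

Proof. `⌊c⌋` Weyl - van der Corput differencing steps and the inequality of Kusmin and Landau (`Pool.Agent.TH915.PW.Exp`)
bound the exponential sums of `f j log (m/n)` over the windows with a power saving, uniformly for all different `m`, `n` up to
a small power of `J` (`Pool.Agent.N12.MH`). Then the lower bound for the moments of zeta over sparse sets of heights with
small character sums of helper461 (`Pool.Agent.R461.HM`) can be applied.
-/

namespace Pool.Agent.Results.MP_6a632e_nt.NonIntegralOrderHeights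

open Complex MeasureTheory
open scoped ENNReal
open Pool.Agent.N12.MH.Gp (gp Short)

noncomputable section

/-- the mean of `|ζ(1/2 + i(t + u))|^(2k)` over `u` with the weight `L / (1 + L |u|) ^ N`, `L = log T` -/
def localMoment (k N : ℕ) (T t : ℝ) : ℝ≥0∞ :=
  ∫⁻ u : ℝ, ENNReal.ofReal (‖riemannZeta (1 / 2 + I * (t + u))‖ ^ (2 * k) *
    (Real.log T / (1 + Real.log T * |u|) ^ N))

/-- **Lower bounds for the moments of zeta over the values of functions of non-integral order.** Let `c > 0` not be an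
integer. There is `κ > 0` such that for all `k ≥ 1` and `N`:

(1) for all `D > 0` there is `C > 0` such that for all generalised polynomials `f` of order `c`: for all large `T`, all `β` and
all windows `J ≤ j < J + L`, `J ^ (1 - κ) ≤ L ≤ J`, `T ≤ J ^ D`, with all `f j + β` in `[T, 2T]`, the mean of the local `2k`-th
moments over the heights `f j + β` is at least `C (log T) ^ (k ^ 2)`;

(2) there is `C > 0` such that for all `α > 0`: for all large `T` and all windows `J ≤ j < J + L`, `J ^ (1 - κ) ≤ L ≤ J`, with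
`T ≤ α J ^ c` and `α (J + L) ^ c ≤ 2 T`, the mean of the local `2k`-th moments over the heights `α j ^ c` is at least
`C (log T) ^ (k ^ 2)`. -/
theorem result (c : ℝ) (hc : 0 < c) (hcn : ∀ m : ℕ, c ≠ m) : ∃ κ : ℝ, 0 < κ ∧ ∀ k N : ℕ, 1 ≤ k →
    (∀ D : ℝ, 0 < D → ∃ C : ℝ, 0 < C ∧
      ∀ (F : Finset ℝ) (a : ℝ → ℝ), c ∈ F → (∀ x ∈ F, x ≤ c) → 0 < a c → ∃ T₀ : ℝ, ∀ T : ℝ, T₀ ≤ T →
        ∀ (J L : ℕ) (β : ℝ), Short (gp F a) κ D β T J L →
          ENNReal.ofReal (C * Real.log T ^ (k ^ 2)) ≤
            (L : ℝ≥0∞)⁻¹ * ∑ j ∈ Finset.Ico J (J + L), localMoment k N T (gp F a j + β)) ∧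
    (∃ C : ℝ, 0 < C ∧ ∀ α : ℝ, 0 < α → ∃ T₀ : ℝ, ∀ T : ℝ, T₀ ≤ T → ∀ J L : ℕ, (J : ℝ) ^ (1 - κ) ≤ L → L ≤ J →
      T ≤ α * (J : ℝ) ^ c → α * ((J : ℝ) + L) ^ c ≤ 2 * T →
        ENNReal.ofReal (C * Real.log T ^ (k ^ 2)) ≤
          (L : ℝ≥0∞)⁻¹ * ∑ j ∈ Finset.Ico J (J + L), localMoment k N T (α * (j : ℝ) ^ c)) := by
  obtain ⟨η, hη, H⟩ := Pool.Agent.N12.MH.Gp.gp_heights c hc hcn
  refine ⟨η / 2, by positivity, fun k N hk => ?_⟩
  have main : ∀ D : ℝ, 0 < D → ∃ C : ℝ, 0 < C ∧
      ∀ (F : Finset ℝ) (a : ℝ → ℝ), c ∈ F → (∀ x ∈ F, x ≤ c) → 0 < a c → ∃ T₀ : ℝ, ∀ T : ℝ, T₀ ≤ T →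
        ∀ (J L : ℕ) (β : ℝ), Short (gp F a) (η / 2) D β T J L →
          ENNReal.ofReal (C * Real.log T ^ (k ^ 2)) ≤
            (L : ℝ≥0∞)⁻¹ * ∑ j ∈ Finset.Ico J (J + L), localMoment k N T (gp F a j + β) := by
    intro D hD
    have hθ : 0 < η / (8 * D) := by positivity
    have hθ' : η / (8 * D) < η / (2 * D) := by
      apply div_lt_div_of_pos_left hη (by positivity)
      linarith
    obtain ⟨C, T₁, hC, hT₁, hlow⟩ := Pool.Agent.R461.HM.lower' hk N hθ hθ'
    refine ⟨C, hC, fun F a hcF hmax hac => ?_⟩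
    obtain ⟨T₂, h⟩ := H D hD F a hcF hmax hac
    refine ⟨max T₁ T₂, fun T hT J L β hw => ?_⟩
    have hTa := (le_max_left _ _).trans hT
    have hT0 : 0 < T := (Real.exp_pos 1).trans_le (hT₁.trans hTa)
    have hL : 0 < Real.log T := by
      have : 1 ≤ Real.log T := by
        rw [Real.le_log_iff_exp_le hT0]
        exact hT₁.trans hTa
      linarith
    obtain ⟨-, h2⟩ := h T ((le_max_right _ _).trans hT) J L β hw
    have h1 := hlow T hTa _ h2
    rw [Pool.Agent.R461.HM.lintegral_unif k N hL] at h1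
    rw [Finset.sum_Ico_eq_sum_range, Nat.add_sub_cancel_left]
    exact h1
  refine ⟨main, ?_⟩
  obtain ⟨C, hC, h⟩ := main (c + 1) (by linarith)
  refine ⟨C, hC, fun α hα => ?_⟩
  obtain ⟨T₀, h⟩ := h {c} (fun _ => α) (Finset.mem_singleton_self c) (fun x hx => (Finset.mem_singleton.1 hx).le) hα
  refine ⟨max T₀ (α * (max α 1) ^ c + 1), fun T hT J L h1 h2 h3 h4 => ?_⟩
  have hTa := (le_max_left _ _).trans hT
  have hTb := (le_max_right _ _).trans hT
  have hgp : ∀ t : ℝ, gp {c} (fun _ => α) t = α * t ^ c := by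
    intro t
    unfold gp
    rw [Finset.sum_singleton]
  have hJα : max α 1 ≤ J := by
    by_contra hcon
    push Not at hcon
    have h5 : (J : ℝ) ^ c ≤ (max α 1) ^ c := Real.rpow_le_rpow (Nat.cast_nonneg J) hcon.le hc.le
    have h6 : α * (J : ℝ) ^ c ≤ α * (max α 1) ^ c := mul_le_mul_of_nonneg_left h5 hα.le
    linarith
  have hJ1 : (1 : ℝ) ≤ J := (le_max_right _ _).trans hJα
  have hw : Short (gp {c} fun _ => α) (η / 2) (c + 1) 0 T J L := by
    refine ⟨h1, h2, ?_, fun j hj1 hj2 => ?_⟩
    · refine h3.trans ?_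
      rw [Real.rpow_add (by linarith), Real.rpow_one, mul_comm]
      exact mul_le_mul_of_nonneg_left ((le_max_left _ _).trans hJα) (by positivity)
    · rw [hgp, add_zero]
      have h5 : (J : ℝ) ≤ j := by exact_mod_cast hj1
      have h6 : (j : ℝ) ≤ J + L := by exact_mod_cast hj2.le
      constructor
      · exact h3.trans (mul_le_mul_of_nonneg_left (Real.rpow_le_rpow (by linarith) h5 hc.le) hα.le)
      · exact le_trans (mul_le_mul_of_nonneg_left (Real.rpow_le_rpow (by linarith) h6 hc.le) hα.le) h4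
  have h5 := h T hTa J L 0 hw
  simp only [hgp, add_zero] at h5
  exact h5

end

end Pool.Agent.Results.MP_6a632e_nt.NonIntegralOrderHeights
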