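import Pool.Agent.R461.HM.Seq
import Pool.Agent.R461.HM.AP

set_option autoImplicit false

/-!
# MP_6a632e_nt: the moments of zeta over sparse sets of heights

The `2k`-th moment of the zeta function on the critical line, for every integer `k ≥ 1`, over heights
`t` which are distributed by a probability measure on `[T, 2T]` that may be very sparse: `T ^ κ` terms
of an arithmetic progression, a dilate of a (fractal) measure with a power decay of its Fourier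
transform, or any probability measure for which the integrals of `(m/n)^(it)` are small. For all of
them the local moments have the lower bound `c (log T) ^ (k ^ 2)` of the conjectured order, and the
shifted moments have limits with the exact arithmetic factor `a_k`, when tested against band-limited
functions of the shift.
-/

namespace Pool.Agent.Results.MP_6a632e_nt.SparseHeights

open Complex MeasureTheory Filter Topology Set
open scoped ContDiff ENNReal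

noncomputable section

/-- the mean of `|ζ(1/2 + i(t + u))|^(2k)` over `u` with the weight `L / (1 + L |u|) ^ N`, `L = log T` -/
def localMoment (k N : ℕ) (T t : ℝ) : ℝ≥0∞ :=
  ∫⁻ u : ℝ, ENNReal.ofReal (‖riemannZeta (1 / 2 + I * (t + u))‖ ^ (2 * k) *
    (Real.log T / (1 + Real.log T * |u|) ^ N))

/-- probability measures of heights in `[T, 2T]` for which the integrals of `(m/n)^(it)`, `m n ≤ Y`,
are small -/
structure SparseIn (T Y δ : ℝ) (ν : Measure ℝ) : Prop where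
  prob : IsProbabilityMeasure ν
  supp : ∀ᵐ t ∂ν, t ∈ Icc T (2 * T)
  small : ∀ m n : ℕ, 1 ≤ m → 1 ≤ n → m ≠ n → (m : ℝ) * n ≤ Y →
    ‖∫ t : ℝ, exp (I * (t * Real.log (m / n))) ∂ν‖ ≤ δ * (1 + 1 / |Real.log (m / n)|)

/-- the arithmetic factor `a_k` -/
def arithmeticFactor (k : ℕ) : ℝ :=
  ∏' p : Nat.Primes, ((1 - 1 / (p : ℝ)) ^ (k ^ 2) *
    ∑' m : ℕ, ((m + k - 1).choose m : ℝ) ^ 2 * (1 / (p : ℝ)) ^ m)

/-- the normalised moment with the shift `α / log T`; for `α = 0` it is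
`(log T) ^ (-k ^ 2) ∫ |ζ(1/2 + it)| ^ (2k) dν(t)` -/
def shifted (k : ℕ) (ν : Measure ℝ) (T α : ℝ) : ℂ :=
  ((Real.log T : ℂ) ^ (k ^ 2))⁻¹ *
    ∫ t, riemannZeta (1 / 2 + I * α / Real.log T + I * t) ^ k *
      riemannZeta (1 / 2 + I * α / Real.log T - I * t) ^ k ∂ν

/-- `φ(v) = ∫ ψ(ξ) e^{iξv} dξ` -/
def phi (ψ : ℝ → ℂ) (v : ℝ) : ℂ := ∫ ξ : ℝ, ψ ξ * exp (I * ξ * v)

open Pool.Agent.R461.HM in
lemma heights {T Y δ : ℝ} {ν : Measure ℝ} (h : SparseIn T Y δ ν) : Heights T Y δ ν :=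
  ⟨h.prob, h.supp, h.small⟩

lemma phi_eq (ψ : ℝ → ℂ) (v : ℝ) : phi ψ v = W182.KO.P ψ (v * I) := by
  unfold phi W182.KO.P
  congr 1; funext ξ
  congr 2
  ring

/-- Let `k ≥ 1`.

(1) For `0 < θ < θ'` and all `N` there is `c > 0` such that for all large `T` the mean of the local
`2k`-th moment over heights distributed by any probability measure `ν` on `[T, 2T]`, for which the
integrals of `(m/n)^(it)` with `m n ≤ T ^ (2 θ)` are at most `T ^ (-θ') (1 + 1 / |log (m/n)|)`, is at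
least `c (log T) ^ (k ^ 2)`.

(2) For `κ > 0` and all `N` there is `c > 0` such that for almost every `h > 0` the same is true for
all large `T` and all arithmetic progressions `x, x + h, …, x + (J - 1) h` in `[T, 2T]` with at least
`T ^ κ` terms.

(3) For `0 < s ≤ 1`, `K` and all `N` there is `c > 0` such that for all large `T` the same is true for
the heights `T x`, with `x` distributed by any probability measure `μ` on `[1, 2]` whose Fourier
transform is at most `K |u| ^ (-s)` for `|u| ≥ 1`.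

(4) For the measures in (1) and every smooth `ψ` with compact support, which vanishes above `2 θ`,
`∫ φ(α) (log T) ^ (-k ^ 2) ∫ ζ(1/2 + i(α / log T + t)) ^ k ζ(1/2 + i(α / log T - t)) ^ k dν(t) dα` tends to
`2 π a_k ∫_0^∞ u ^ (k ^ 2 - 1) / (k ^ 2 - 1)! ψ(2 u) du` for `T → ∞`, uniformly in `ν`. -/
theorem result (k : ℕ) (hk : 1 ≤ k) :
    (∀ (θ θ' : ℝ) (N : ℕ), 0 < θ → θ < θ' → ∃ c T₀ : ℝ, 0 < c ∧ ∀ T : ℝ, T₀ ≤ T → ∀ ν : Measure ℝ,
      SparseIn T (T ^ (2 * θ)) (T ^ (-θ')) ν →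
        ENNReal.ofReal (c * Real.log T ^ (k ^ 2)) ≤ ∫⁻ t, localMoment k N T t ∂ν) ∧
    (∀ (κ : ℝ) (N : ℕ), 0 < κ → ∃ c : ℝ, 0 < c ∧ ∀ᵐ h : ℝ, 0 < h → ∃ T₀ : ℝ, ∀ T : ℝ, T₀ ≤ T →
      ∀ J : ℕ, T ^ κ ≤ J → ∀ x : ℝ, T ≤ x → x + J * h ≤ 2 * T →
        ENNReal.ofReal (c * Real.log T ^ (k ^ 2)) ≤
          (J : ℝ≥0∞)⁻¹ * ∑ j ∈ Finset.range J, localMoment k N T (x + j * h)) ∧
    (∀ (s K : ℝ) (N : ℕ), 0 < s → s ≤ 1 → 0 ≤ K → ∃ c T₀ : ℝ, 0 < c ∧ ∀ T : ℝ, T₀ ≤ T →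
      ∀ μ : Measure ℝ, IsProbabilityMeasure μ → (∀ᵐ x ∂μ, x ∈ Icc (1:ℝ) 2) →
        (∀ u : ℝ, 1 ≤ |u| → ‖∫ x : ℝ, exp (I * (u * x)) ∂μ‖ ≤ K * |u| ^ (-s)) →
          ENNReal.ofReal (c * Real.log T ^ (k ^ 2)) ≤ ∫⁻ x, localMoment k N T (T * x) ∂μ) ∧
    (∀ (θ θ' : ℝ), 0 ≤ θ → θ < θ' → ∀ ψ : ℝ → ℂ, ContDiff ℝ ∞ ψ → HasCompactSupport ψ →
      (∀ ξ : ℝ, 2 * θ < ξ → ψ ξ = 0) → ∀ η : ℝ, 0 < η → ∃ T₀ : ℝ, ∀ T : ℝ, T₀ ≤ T →
        ∀ ν : Measure ℝ, SparseIn T (T ^ (2 * θ)) (T ^ (-θ')) ν →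
          Integrable (fun α : ℝ => phi ψ α * shifted k ν T α) ∧
          ‖(∫ α : ℝ, phi ψ α * shifted k ν T α) - 2 * Real.pi * arithmeticFactor k *
            ∫ u in Set.Ioi (0:ℝ), (u : ℂ) ^ (k ^ 2 - 1) / (k ^ 2 - 1).factorial * ψ (2 * u)‖ ≤ η) := by
  refine ⟨fun θ θ' N hθ hθ' => ?_, fun κ N hκ => ?_, fun s K N hs0 hs1 hK => ?_,
    fun θ θ' hθ hθ' ψ hψ hc hs η hη => ?_⟩
  · obtain ⟨c, T₀, hc, -, h⟩ := Pool.Agent.R461.HM.lower' hk N hθ hθ'
    exact ⟨c, T₀, hc, fun T hT ν hν => h T hT ν (heights hν)⟩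
  · obtain ⟨c, T₀, hc, hT₀, h⟩ := Pool.Agent.R461.HM.lower_seq hk N
      (show (0:ℝ) < κ / 20 by positivity) (show κ / 20 < κ / 10 by linarith)
    refine ⟨c, hc, ?_⟩
    filter_upwards [Pool.Agent.R461.HM.ap_small hκ] with d hd hpos
    obtain ⟨T₁, hT₁, hsm⟩ := hd hpos
    refine ⟨max T₀ T₁, fun T hT J hJ x hx1 hx2 => ?_⟩
    have hTa := (le_max_left _ _).trans hT
    have hTb := (le_max_right _ _).trans hT
    have hT1 : 1 ≤ T := hT₁.trans hTb
    have hJ1 : 1 ≤ J := by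
      have h1 : (1:ℝ) ≤ J := (Real.one_le_rpow hT1 hκ.le).trans hJ
      exact_mod_cast h1
    refine h T hTa J (fun j => x + j * d) hJ1 (fun j hj => ?_) (fun m n hm hn hmn hY => ?_)
    · have h2 : (j:ℝ) ≤ J := by exact_mod_cast hj.le
      constructor
      · have : 0 ≤ (j:ℝ) * d := by positivity
        linarith
      · have : (j:ℝ) * d ≤ J * d := by gcongr
        linarith
    · exact hsm T hTb J hJ x m n hm hn hmn hY
  · obtain ⟨c, T₀, hc, hT₀, h⟩ := Pool.Agent.R461.HM.lower' hk N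
      (show (0:ℝ) < s / 4 by positivity) (show s / 4 < s / 2 by linarith)
    obtain ⟨T₁, hT₁, hd⟩ := Pool.Agent.R461.HM.dilated hs0 hs1 hK (show s / 2 < s by linarith)
    refine ⟨c, max T₀ T₁, hc, fun T hT μ hμ hsup hdec => ?_⟩
    have hTa := (le_max_left _ _).trans hT
    have hTb := (le_max_right _ _).trans hT
    have hT0 : 0 < T := (Real.exp_pos 1).trans_le (hT₀.trans hTa)
    have hL : 0 < Real.log T := by
      have : 1 ≤ Real.log T := by
        rw [Real.le_log_iff_exp_le hT0]; exact hT₀.trans hTa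
      linarith
    have h3 := h T hTa _ (hd T hTb μ hμ hsup hdec (T ^ (2 * (s / 4))) (by positivity))
    rwa [lintegral_map (Pool.Agent.R461.HM.loc_meas k N hL) (by fun_prop)] at h3
  · obtain ⟨T₀, -, h⟩ := Pool.Agent.R461.HM.limit_form hθ hθ' hψ hc hs hk η hη
    refine ⟨T₀, fun T hT ν hν => ?_⟩
    obtain ⟨h1, h2⟩ := h T hT ν (heights hν)
    have e : (fun α : ℝ => phi ψ α * shifted k ν T α) =
        fun α : ℝ => W182.KO.P ψ (α * I) * Pool.Agent.R461.HM.Qn k ν α T := by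
      funext α
      rw [phi_eq]
      rfl
    rw [e]
    exact ⟨h1, h2⟩

end

end Pool.Agent.Results.MP_6a632e_nt.SparseHeights
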